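import Pool.Agent.X202.PG

/-!
# Projectional skeletons: the naive choice of a projectional generator can fail

For every infinite set `κ` (countable or not) the space `ℓ¹(κ)` carries a projectional skeleton
consisting of norm one projections, and a choice of indices `σ(f)` and of countable dense sets
`Φ(f) ⊆ P_{σ(f)} X`, for which `(D, Φ)` is not a projectional generator.
-/

open Filter Topology Set

namespace Pool.Agent.Results.MP_2163b8_an.NaiveGenerator

variable {X : Type*} [NormedAddCommGroup X] [NormedSpace ℝ X]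

/-- A projectional skeleton on `X` (see the problem file). -/
structure IsProjSkeleton {Γ : Type} [PartialOrder Γ] (P : Γ → X →L[ℝ] X) : Prop where
  nonempty : Nonempty Γ
  directed : ∀ s t : Γ, ∃ u, s ≤ u ∧ t ≤ u
  idem : ∀ s, (P s).comp (P s) = P s
  separable : ∀ s, TopologicalSpace.IsSeparable (Set.range (P s))
  compat : ∀ s t, s ≤ t → (P s).comp (P t) = P s ∧ (P t).comp (P s) = P s
  sup : ∀ u : ℕ → Γ, Monotone u →
    ∃ s, IsLUB (Set.range u) s ∧ Set.range (P s) = closure (⋃ n, Set.range (P (u n)))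
  cover : (⋃ s, Set.range (P s)) = Set.univ

/-- The set `D = ⋃_s P_s^* X^*` induced by the skeleton. -/
def induced {Γ : Type} (P : Γ → X →L[ℝ] X) : Set (StrongDual ℝ X) :=
  ⋃ s, Set.range (fun f : StrongDual ℝ X => f.comp (P s))

/-- `D` is norming: `x ↦ sup {|f x| : f ∈ D, ‖f‖ ≤ 1}` is an equivalent norm (it is always
at most `‖x‖`). -/
def IsNorming (D : Set (StrongDual ℝ X)) : Prop :=
  ∃ c : ℝ, 0 < c ∧ ∀ x : X, c * ‖x‖ ≤ sSup {r | ∃ f ∈ D, ‖f‖ ≤ 1 ∧ r = |f x|}

/-- The weak* closure of a set of functionals. -/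
def weakStarClosure (B : Set (StrongDual ℝ X)) : Set (StrongDual ℝ X) :=
  StrongDual.toWeakDual ⁻¹' closure (StrongDual.toWeakDual '' B)

/-- A set of functionals which is a linear subspace of `X^*`. -/
def IsLinear (D : Set (StrongDual ℝ X)) : Prop :=
  ∃ W : Submodule ℝ (StrongDual ℝ X), (W : Set (StrongDual ℝ X)) = D

/-- The annihilator of `⋃_{f ∈ A} Φ(f)`. -/
def annih (A : Set (StrongDual ℝ X)) (Φ : StrongDual ℝ X → Set X) : Set (StrongDual ℝ X) :=
  {g | ∀ f ∈ A, ∀ x ∈ Φ f, g x = 0}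

/-- `(D, Φ)` is a projectional generator on `X` (only the values of `Φ` on `D` matter). -/
def IsProjGenerator (D : Set (StrongDual ℝ X)) (Φ : StrongDual ℝ X → Set X) : Prop :=
  IsLinear D ∧ IsNorming D ∧ (∀ f ∈ D, (Φ f).Countable) ∧
  ∀ A ⊆ D, IsLinear (closure A) → annih A Φ ∩ weakStarClosure (closure A) = {0}

/-- `σ` and `Φ` are as in Q2: `P_{σ f}^* f = f` and `Φ f` is a countable dense subset of the
range of `P_{σ f}`, for every `f` in the induced subspace. -/
def IsNaiveChoice {Γ : Type} (P : Γ → X →L[ℝ] X) (σ : StrongDual ℝ X → Γ)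
    (Φ : StrongDual ℝ X → Set X) : Prop :=
  ∀ f ∈ induced P, f.comp (P (σ f)) = f ∧ (Φ f).Countable ∧
    Φ f ⊆ Set.range (P (σ f)) ∧ Set.range (P (σ f)) ⊆ closure (Φ f)

/-- `X` has a projectional skeleton of operators of norm at most one and a choice `σ, Φ` as in
Q2 for which `(D, Φ)` is not a projectional generator, although `D` is a linear subspace and
norming. -/
def NaiveChoiceFails (X : Type) [NormedAddCommGroup X] [NormedSpace ℝ X] : Prop :=
  ∃ (Γ : Type) (_ : PartialOrder Γ) (P : Γ → X →L[ℝ] X) (σ : StrongDual ℝ X → Γ)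
    (Φ : StrongDual ℝ X → Set X),
    IsProjSkeleton P ∧ (∀ s, ‖P s‖ ≤ 1) ∧ IsLinear (induced P) ∧ IsNorming (induced P) ∧
      IsNaiveChoice P σ Φ ∧ ¬ IsProjGenerator (induced P) Φ

/-! ### General facts -/

lemma isClosed_range_of_idem (Q : X →L[ℝ] X) (h : Q.comp Q = Q) : IsClosed (Set.range Q) := by
  have : Set.range Q = {x | Q x = x} := by
    ext x
    constructor
    · rintro ⟨y, rfl⟩
      exact congrArg (fun T : X →L[ℝ] X => T y) h
    · intro hx; exact ⟨x, hx⟩
  rw [this]
  exact isClosed_eq Q.continuous continuous_id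

lemma induced_submodule {Γ : Type} [PartialOrder Γ] (P : Γ → X →L[ℝ] X)
    (h : IsProjSkeleton P) :
    ∃ W : Submodule ℝ (StrongDual ℝ X), (W : Set (StrongDual ℝ X)) = induced P := by
  refine ⟨{ carrier := induced P, add_mem' := ?_, zero_mem' := ?_, smul_mem' := ?_ }, rfl⟩
  · rintro a b ha hb
    obtain ⟨s, f, rfl⟩ := Set.mem_iUnion.1 ha
    obtain ⟨t, g, rfl⟩ := Set.mem_iUnion.1 hb
    obtain ⟨u, hsu, htu⟩ := h.directed s t
    refine Set.mem_iUnion.2 ⟨u, f.comp (P s) + g.comp (P t), ?_⟩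
    have h1 := (h.compat s u hsu).1
    have h2 := (h.compat t u htu).1
    ext x
    have h1' := congrArg (fun T : X →L[ℝ] X => f (T x)) h1
    have h2' := congrArg (fun T : X →L[ℝ] X => g (T x)) h2
    simp only [ContinuousLinearMap.comp_apply] at h1' h2'
    simp [h1', h2']
  · obtain ⟨s⟩ := h.nonempty
    exact Set.mem_iUnion.2 ⟨s, 0, by simp⟩
  · rintro c a ha
    obtain ⟨s, f, rfl⟩ := Set.mem_iUnion.1 ha
    exact Set.mem_iUnion.2 ⟨s, c • f, by ext x; simp⟩

lemma induced_norming {Γ : Type} [PartialOrder Γ] (P : Γ → X →L[ℝ] X)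
    (h : IsProjSkeleton P) (h1 : ∀ s, ‖P s‖ ≤ 1) : IsNorming (induced P) := by
  refine ⟨1, one_pos, fun x => ?_⟩
  rw [one_mul]
  have hx : x ∈ (⋃ s, Set.range (P s)) := by rw [h.cover]; trivial
  obtain ⟨s, y, hy⟩ := Set.mem_iUnion.1 hx
  have hPx : P s x = x := by
    rw [← hy]
    exact congrArg (fun T : X →L[ℝ] X => T y) (h.idem s)
  have hbdd : BddAbove {r | ∃ f ∈ induced P, ‖f‖ ≤ 1 ∧ r = |f x|} := by
    refine ⟨‖x‖, ?_⟩
    rintro r ⟨f, -, hf, rfl⟩
    calc |f x| = ‖f x‖ := rfl
      _ ≤ ‖f‖ * ‖x‖ := f.le_opNorm x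
      _ ≤ 1 * ‖x‖ := by gcongr
      _ = ‖x‖ := one_mul _
  obtain ⟨g, hg, hgx⟩ := exists_dual_vector'' ℝ x
  apply le_csSup hbdd
  refine ⟨g.comp (P s), Set.mem_iUnion.2 ⟨s, g, rfl⟩, ?_, ?_⟩
  · calc ‖g.comp (P s)‖ ≤ ‖g‖ * ‖P s‖ := ContinuousLinearMap.opNorm_comp_le _ _
      _ ≤ 1 * 1 := by
        apply mul_le_mul hg (h1 s) (norm_nonneg _) zero_le_one
      _ = 1 := one_mul _
  · rw [ContinuousLinearMap.comp_apply, hPx, hgx]
    simp

/-! ### The skeleton on `ℓ¹(κ)` -/

open PG

variable {κ : Type} [DecidableEq κ] {l : ℕ → κ}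

/-- The index set: countable subsets of `κ`, and nonzero members of `A`. -/
inductive Idx (κ : Type) [DecidableEq κ] (l : ℕ → κ) : Type
  | big (C : Set κ) (hC : C.Countable) : Idx κ l
  | small (f : StrongDual ℝ (L1 κ)) (hf : f ∈ A κ l) (h0 : f ≠ 0) : Idx κ l

/-- The order. -/
def Idx.le' : Idx κ l → Idx κ l → Prop
  | .big C _, .big D _ => C ⊆ D
  | .small _ _ _, .big C _ => Set.range l ⊆ C
  | .small f _ _, .small g _ _ => f = g
  | .big _ _, .small _ _ _ => False

instance : PartialOrder (Idx κ l) where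
  le := Idx.le'
  le_refl := by
    rintro (⟨C, hC⟩ | ⟨f, hf, h0⟩)
    · exact (le_refl C : C ⊆ C)
    · exact (rfl : f = f)
  le_trans := by
    rintro (⟨C, hC⟩ | ⟨f, hf, h0⟩) (⟨D, hD⟩ | ⟨g, hg, h1⟩) (⟨E, hE⟩ | ⟨k, hk, h2⟩) h h'
    · exact Set.Subset.trans (h : C ⊆ D) (h' : D ⊆ E)
    · exact h'.elim
    · exact h.elim
    · exact h.elim
    · exact Set.Subset.trans (h : Set.range l ⊆ D) (h' : D ⊆ E)
    · exact h'.elim
    · exact (h' : Set.range l ⊆ E)
    · exact (h : f = g).trans (h' : g = k)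
  le_antisymm := by
    rintro (⟨C, hC⟩ | ⟨f, hf, h0⟩) (⟨D, hD⟩ | ⟨g, hg, h1⟩) h h'
    · have : C = D := Set.Subset.antisymm (h : C ⊆ D) (h' : D ⊆ C)
      subst this; rfl
    · exact h.elim
    · exact h'.elim
    · have : f = g := h
      subst this; rfl

/-- the set of coordinates attached to an index. -/
def Idx.car : Idx κ l → Set κ
  | .big C _ => C
  | .small _ _ _ => Set.range l

lemma Idx.car_countable (s : Idx κ l) : s.car.Countable := by
  cases s with
  | big C hC => exact hC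
  | small f hf h0 => exact Set.countable_range l

lemma Idx.le_big (s : Idx κ l) (C : Set κ) (hC : C.Countable) : s ≤ .big C hC ↔ s.car ⊆ C := by
  cases s with
  | big D hD => exact Iff.rfl
  | small f hf h0 => exact Iff.rfl

lemma Idx.car_mono {s t : Idx κ l} (h : s ≤ t) : s.car ⊆ t.car := by
  cases t with
  | big C hC => exact (Idx.le_big s C hC).1 h
  | small g hg h1 =>
    cases s with
    | big D hD => exact (h : False).elim
    | small f hf h0 => exact subset_rfl

lemma Idx.big_le {C : Set κ} {hC : C.Countable} {t : Idx κ l} (h : Idx.big C hC ≤ t) :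
    ∃ D hD, t = .big D hD := by
  cases t with
  | big D hD => exact ⟨D, hD, rfl⟩
  | small g hg h1 => exact (h : False).elim

/-- the skeleton. -/
noncomputable def Sk (κ : Type) [DecidableEq κ] (l : ℕ → κ) : Idx κ l → L1 κ →L[ℝ] L1 κ
  | .big C _ => proj C
  | .small f hf h0 => rk f (l (Classical.choose (exists_max l f hf h0)))

lemma Sk_big (C : Set κ) (hC : C.Countable) : Sk κ l (.big C hC) = proj C := rfl

lemma Sk_small (f : StrongDual ℝ (L1 κ)) (hf : f ∈ A κ l) (h0 : f ≠ 0) :
    ∃ n, 1 ≤ n ∧ f (e (l n)) ≠ 0 ∧ (∀ i, |f (e i)| ≤ |f (e (l n))|) ∧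
      Sk κ l (.small f hf h0) = rk f (l n) := by
  have h := Classical.choose_spec (exists_max l f hf h0)
  exact ⟨_, h.1, h.2.1, h.2.2, rfl⟩

lemma comp_proj_eq (f : StrongDual ℝ (L1 κ)) (hf : f ∈ A κ l) (C : Set κ)
    (hC : Set.range l ⊆ C) : f.comp (proj C) = f := by
  apply ext_basis
  intro i
  rw [ContinuousLinearMap.comp_apply]
  by_cases hi : i ∈ C
  · rw [proj_e _ _ hi]
  · rw [proj_e' _ _ hi, map_zero]
    exact (hf.1 i (fun h => hi (hC h))).symm

lemma Sk_idem (s : Idx κ l) : (Sk κ l s).comp (Sk κ l s) = Sk κ l s := by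
  cases s with
  | big C hC => ext x : 1; exact proj_proj C C x subset_rfl
  | small f hf h0 =>
    obtain ⟨n, -, h1, -, h2⟩ := Sk_small f hf h0
    rw [h2]
    ext x : 1
    exact rk_rk f _ h1 x

lemma Sk_norm (s : Idx κ l) : ‖Sk κ l s‖ ≤ 1 := by
  cases s with
  | big C hC => exact norm_proj_le C
  | small f hf h0 =>
    obtain ⟨n, -, h1, h2, h3⟩ := Sk_small f hf h0
    rw [h3]
    exact norm_rk_le f _ h1 h2

lemma Sk_compat (s t : Idx κ l) (h : s ≤ t) :
    (Sk κ l s).comp (Sk κ l t) = Sk κ l s ∧ (Sk κ l t).comp (Sk κ l s) = Sk κ l s := by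
  cases t with
  | big D hD =>
    cases s with
    | big C hC =>
      have h' : C ⊆ D := h
      exact ⟨by ext x : 1; exact proj_proj C D x h', by ext x : 1; exact proj_proj' C D x h'⟩
    | small f hf h0 =>
      have h' : Set.range l ⊆ D := h
      obtain ⟨n, -, h1, -, h2⟩ := Sk_small f hf h0
      rw [h2, Sk_big]
      constructor
      · ext x : 1
        rw [ContinuousLinearMap.comp_apply, rk_apply, rk_apply]
        have := congrArg (fun T : StrongDual ℝ (L1 κ) => T x) (comp_proj_eq f hf D h')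
        simp only [ContinuousLinearMap.comp_apply] at this
        rw [this]
      · ext x : 1
        rw [ContinuousLinearMap.comp_apply, rk_apply, map_smul, proj_e _ _ (h' ⟨n, rfl⟩)]
  | small g hg h1 =>
    cases s with
    | big C hC => exact (h : False).elim
    | small f hf h0 =>
      have h' : f = g := h
      subst h'
      exact ⟨Sk_idem _, Sk_idem _⟩

lemma Sk_separable (s : Idx κ l) : TopologicalSpace.IsSeparable (Set.range (Sk κ l s)) := by
  cases s with
  | big C hC => exact isSeparable_range_proj C hC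
  | small f hf h0 =>
    -- the range is contained in the range of a coordinate projection
    have h := Sk_compat (.small f hf h0) (.big (Set.range l) (Set.countable_range l))
      ((Idx.le_big _ _ _).2 subset_rfl)
    refine (isSeparable_range_proj (Set.range l) (Set.countable_range l)).mono ?_
    rintro _ ⟨x, rfl⟩
    refine ⟨Sk κ l (.small f hf h0) x, ?_⟩
    exact congrArg (fun T : L1 κ →L[ℝ] L1 κ => T x) h.2

lemma range_subset_of_le (s t : Idx κ l) (h : s ≤ t) :
    Set.range (Sk κ l s) ⊆ Set.range (Sk κ l t) := by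
  rintro _ ⟨x, rfl⟩
  exact ⟨Sk κ l s x, congrArg (fun T : L1 κ →L[ℝ] L1 κ => T x) (Sk_compat s t h).2⟩

lemma Sk_sup (u : ℕ → Idx κ l) (hu : Monotone u) :
    ∃ s, IsLUB (Set.range u) s ∧
      Set.range (Sk κ l s) = closure (⋃ n, Set.range (Sk κ l (u n))) := by
  by_cases hb : ∃ n C hC, u n = .big C hC
  · obtain ⟨n0, C0, hC0, hn0⟩ := hb
    have hbig : ∀ n, n0 ≤ n → ∃ D hD, u n = .big D hD := by
      intro n hn
      have := hu hn
      rw [hn0] at this
      exact Idx.big_le this
    have hUc : (⋃ n, (u n).car).Countable := Set.countable_iUnion (fun n => (u n).car_countable)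
    refine ⟨.big (⋃ n, (u n).car) hUc, ⟨?_, ?_⟩, ?_⟩
    · rintro _ ⟨n, rfl⟩
      exact (Idx.le_big _ _ _).2 (Set.subset_iUnion (fun n => (u n).car) n)
    · intro v hv
      have h1 : u n0 ≤ v := hv ⟨n0, rfl⟩
      rw [hn0] at h1
      obtain ⟨V, hV, rfl⟩ := Idx.big_le h1
      rw [Idx.le_big]
      exact Set.iUnion_subset (fun n => (Idx.le_big _ _ _).1 (hv ⟨n, rfl⟩))
    · apply Set.Subset.antisymm
      · rintro _ ⟨y, rfl⟩
        have hm : Monotone (fun n => (u n).car) := fun a b hab => Idx.car_mono (hu hab)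
        have h2 := mem_closure_of_union (fun n => (u n).car) hm
          (proj (⋃ n, (u n).car) y) (proj_proj _ _ y subset_rfl) n0
        refine closure_mono ?_ h2
        refine Set.iUnion₂_subset fun n hn => ?_
        obtain ⟨D, hD, hn'⟩ := hbig n hn
        refine Set.subset_iUnion_of_subset n ?_
        rw [hn']
        exact subset_rfl
      · apply closure_minimal
        · refine Set.iUnion_subset fun n => ?_
          apply range_subset_of_le
          exact (Idx.le_big _ _ _).2 (Set.subset_iUnion (fun n => (u n).car) n)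
        · exact isClosed_range_of_idem _ (Sk_idem _)
  · have hconst : ∀ n, u n = u 0 := by
      intro n
      have h0n := hu (Nat.zero_le n)
      cases h0 : u 0 with
      | big C hC => exact absurd ⟨0, C, hC, h0⟩ hb
      | small f hf hf0 =>
        cases hn : u n with
        | big C hC => exact absurd ⟨n, C, hC, hn⟩ hb
        | small g hg hg0 =>
          rw [h0, hn] at h0n
          have : f = g := h0n
          subst this; rfl
    refine ⟨u 0, ⟨?_, ?_⟩, ?_⟩
    · rintro _ ⟨n, rfl⟩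
      exact (hconst n).le
    · intro v hv
      exact hv ⟨0, rfl⟩
    · have : (⋃ n, Set.range (Sk κ l (u n))) = Set.range (Sk κ l (u 0)) := by
        apply Set.Subset.antisymm
        · exact Set.iUnion_subset fun n => by rw [hconst n]
        · exact Set.subset_iUnion (fun n => Set.range (Sk κ l (u n))) 0
      rw [this]
      exact (isClosed_range_of_idem _ (Sk_idem _)).closure_eq.symm

lemma Sk_isProjSkeleton : IsProjSkeleton (Sk κ l) where
  nonempty := ⟨.big ∅ Set.countable_empty⟩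
  directed := fun s t => ⟨.big (s.car ∪ t.car) (s.car_countable.union t.car_countable),
    (Idx.le_big _ _ _).2 Set.subset_union_left, (Idx.le_big _ _ _).2 Set.subset_union_right⟩
  idem := Sk_idem
  separable := Sk_separable
  compat := Sk_compat
  sup := Sk_sup
  cover := by
    apply Set.eq_univ_of_forall
    intro x
    obtain ⟨C, hC, hx⟩ := support_countable x
    exact Set.mem_iUnion.2 ⟨.big C hC, x, hx⟩

lemma f_comp_small (f : StrongDual ℝ (L1 κ)) (hf : f ∈ A κ l) (h0 : f ≠ 0) :
    f.comp (Sk κ l (.small f hf h0)) = f := by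
  obtain ⟨n, -, h1, -, h2⟩ := Sk_small f hf h0
  rw [h2]
  ext x
  exact f_rk f _ h1 x

lemma sum_ne_zero : sumOn (tailSet l 0) ≠ 0 := by
  intro h
  have h1 := sumOn_e_mem (tailSet l 0) (l 0) (Or.inl rfl)
  rw [h] at h1
  simp at h1

/-- For every infinite set `κ`, the space `ℓ¹(κ)` has a projectional skeleton of norm one
projections with induced subspace `D`, together with indices `σ f` satisfying
`P_{σ f}^* f = f` and countable dense subsets `Φ f` of the range of `P_{σ f}` (`f ∈ D`), such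
that `(D, Φ)` is not a projectional generator (although `D` is a norming subspace). -/
theorem result (κ : Type) [Infinite κ] : NaiveChoiceFails (lp (fun _ : κ => ℝ) 1) := by
  classical
  let l : ℕ → κ := Infinite.natEmbedding κ
  have hl : Function.Injective l := (Infinite.natEmbedding κ).injective
  -- the choice of indices
  have hσ : ∀ f : StrongDual ℝ (L1 κ), ∃ s : Idx κ l,
      (f ∈ induced (Sk κ l) → f.comp (Sk κ l s) = f) ∧
      (f ∈ A κ l → ∃ g hg h0, s = .small g hg h0) := by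
    intro f
    by_cases hfA : f ∈ A κ l
    · by_cases h0 : f = 0
      · refine ⟨.small (sumOn (tailSet l 0)) (sumOn_mem_A l 0) sum_ne_zero, ?_, ?_⟩
        · intro _; subst h0; simp
        · intro _; exact ⟨_, _, _, rfl⟩
      · exact ⟨.small f hfA h0, fun _ => f_comp_small f hfA h0, fun _ => ⟨_, _, _, rfl⟩⟩
    · by_cases hfD : f ∈ induced (Sk κ l)
      · obtain ⟨s, g, rfl⟩ := Set.mem_iUnion.1 hfD
        refine ⟨s, fun _ => ?_, fun h => absurd h hfA⟩
        show (g.comp (Sk κ l s)).comp (Sk κ l s) = g.comp (Sk κ l s)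
        rw [ContinuousLinearMap.comp_assoc, Sk_idem]
      · exact ⟨.big ∅ Set.countable_empty, fun h => absurd h hfD, fun h => absurd h hfA⟩
  choose σ hσ1 hσ2 using hσ
  have hΦ : ∀ f : StrongDual ℝ (L1 κ), ∃ T : Set (L1 κ), T ⊆ Set.range (Sk κ l (σ f)) ∧
      T.Countable ∧ Set.range (Sk κ l (σ f)) ⊆ closure T := fun f =>
    (Sk_separable (σ f)).exists_countable_dense_subset
  choose Φ hΦ1 hΦ2 hΦ3 using hΦ
  refine ⟨Idx κ l, inferInstance, Sk κ l, σ, Φ, Sk_isProjSkeleton, Sk_norm,
    induced_submodule _ Sk_isProjSkeleton, induced_norming _ Sk_isProjSkeleton Sk_norm,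
    fun f hf => ⟨hσ1 f hf, hΦ2 f, hΦ1 f, hΦ3 f⟩, ?_⟩
  rintro ⟨-, -, -, hgen⟩
  have hAD : (A κ l : Set (StrongDual ℝ (L1 κ))) ⊆ induced (Sk κ l) := by
    intro f hf
    by_cases h0 : f = 0
    · subst h0
      exact Set.mem_iUnion.2 ⟨.big ∅ Set.countable_empty, 0, by simp⟩
    · exact Set.mem_iUnion.2 ⟨.small f hf h0, f, f_comp_small f hf h0⟩
  have key := hgen (A κ l : Set (StrongDual ℝ (L1 κ))) hAD
    ⟨(A κ l).topologicalClosure, Submodule.topologicalClosure_coe _⟩
  -- the functional `z`: evaluation at `l 0`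
  let z : StrongDual ℝ (L1 κ) := lp.evalCLM ℝ (fun _ : κ => ℝ) 1 (l 0)
  have hz : ∀ x : L1 κ, z x = x (l 0) := fun x => rfl
  have hz1 : z ∈ {g : StrongDual ℝ (L1 κ) |
      ∀ f ∈ (A κ l : Set (StrongDual ℝ (L1 κ))), ∀ x ∈ Φ f, g x = 0} := by
    intro f hf x hx
    obtain ⟨g, hg, h0, hs⟩ := hσ2 f hf
    have hx' := hΦ1 f hx
    rw [hs] at hx'
    obtain ⟨y, rfl⟩ := hx'
    obtain ⟨n, hn, -, -, h2⟩ := Sk_small g hg h0
    rw [h2, hz]
    apply range_rk_coord
    intro h
    have := hl h
    omega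
  have hz2 : z ∈ weakStarClosure (closure (A κ l : Set (StrongDual ℝ (L1 κ)))) := by
    show StrongDual.toWeakDual z ∈ closure _
    have ht : Tendsto (fun N => StrongDual.toWeakDual (sumOn (tailSet l N))) atTop
        (𝓝 (StrongDual.toWeakDual z)) := by
      rw [tendsto_iff_forall_eval_tendsto_topDualPairing]
      intro x
      exact tendsto_sumOn l hl x
    apply mem_closure_of_tendsto ht
    refine Eventually.of_forall fun N => ?_
    exact ⟨_, subset_closure (sumOn_mem_A l N), rfl⟩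
  have hz3 : z ∈ ({0} : Set (StrongDual ℝ (L1 κ))) := by
    rw [← key]; exact ⟨hz1, hz2⟩
  have hz4 : z = 0 := hz3
  have h5 : z (e (l 0)) = 1 := by
    rw [hz, e_apply]; simp
  rw [hz4] at h5
  simp at h5

end Pool.Agent.Results.MP_2163b8_an.NaiveGenerator
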